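import Pool.Agent.Helper26.DZDefs

open Complex Metric Set Filter Topology MeasureTheory

namespace Pool.Agent.Helper22.DZ

open Pool.Agent.Helper26.DZ

lemma hasDerivAt_re {f : ℝ → ℂ} {f' : ℂ} {t : ℝ} (hf : HasDerivAt f f' t) :
    HasDerivAt (fun x => (f x).re) f'.re t :=
  (Complex.reCLM.hasFDerivAt (x := f t)).comp_hasDerivAt t hf

lemma hasDerivAt_im {f : ℝ → ℂ} {f' : ℂ} {t : ℝ} (hf : HasDerivAt f f' t) :
    HasDerivAt (fun x => (f x).im) f'.im t :=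
  (Complex.imCLM.hasFDerivAt (x := f t)).comp_hasDerivAt t hf

/-- The Noshiro-Warschawski inequality. -/
lemma nw {E : ℝ} {Φ h : ℂ → ℂ} (H : HP E Φ h) {a b : ℂ} (ha : a.re ≤ 0) (hb : b.re ≤ 0) :
    E * ‖a - b‖ ^ 2 ≤ ((Φ a - Φ b) * (starRingEnd ℂ) (a - b)).re := by
  have hγre : ∀ t ∈ Icc (0 : ℝ) 1, (b + t * (a - b)).re ≤ 0 := by
    intro t ht
    have : (b + t * (a - b)).re = (1 - t) * b.re + t * a.re := by
      simp only [add_re, re_ofReal_mul, sub_re]; ring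
    rw [this]
    have h1 : 0 ≤ t := ht.1
    have h2 : t ≤ 1 := ht.2
    nlinarith
  have hγ : ∀ t : ℝ, HasDerivAt (fun t : ℝ => b + t * (a - b)) (a - b) t := by
    intro t
    have h1 : HasDerivAt (fun t : ℝ => (t : ℂ)) 1 t := Complex.ofRealCLM.hasDerivAt
    have h2 := (h1.mul_const (a - b)).const_add b
    simpa using h2
  have hg : ∀ t ∈ Icc (0 : ℝ) 1, HasDerivAt
      (fun t : ℝ => (Φ (b + t * (a - b)) * (starRingEnd ℂ) (a - b)).re)
      ((deriv Φ (b + t * (a - b))).re * ‖a - b‖ ^ 2) t := by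
    intro t ht
    have h1 : HasDerivAt Φ (deriv Φ (b + t * (a - b))) (b + t * (a - b)) :=
      (H.dΦ _ (hγre t ht)).hasDerivAt
    have h2 : HasDerivAt (fun t : ℝ => Φ (b + t * (a - b)))
        ((a - b) • deriv Φ (b + t * (a - b))) t := HasDerivAt.scomp t h1 (hγ t)
    have h3 := hasDerivAt_re (h2.mul_const ((starRingEnd ℂ) (a - b)))
    convert h3 using 1
    have h4 : (a - b) • deriv Φ (b + t * (a - b)) * (starRingEnd ℂ) (a - b) =
        deriv Φ (b + t * (a - b)) * ((‖a - b‖ ^ 2 : ℝ) : ℂ) := by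
      rw [smul_eq_mul, mul_comm (a - b), mul_assoc, Complex.mul_conj, Complex.normSq_eq_norm_sq]
    rw [h4, Complex.re_mul_ofReal]
  have hmv := (convex_Icc (0 : ℝ) 1).mul_sub_le_image_sub_of_le_deriv
    (f := fun t : ℝ => (Φ (b + t * (a - b)) * (starRingEnd ℂ) (a - b)).re)
    (fun t ht => (hg t ht).continuousAt.continuousWithinAt)
    (fun t ht => (hg t (interior_subset ht)).differentiableAt.differentiableWithinAt)
    (C := E * ‖a - b‖ ^ 2)
    (fun t ht => by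
      rw [(hg t (interior_subset ht)).deriv]
      have := H.re _ (hγre t (interior_subset ht))
      gcongr) 0 (by simp) 1 (by simp) zero_le_one
  simp only [ofReal_one, one_mul, ofReal_zero, zero_mul, add_zero, sub_zero, mul_one] at hmv
  have h5 : b + (a - b) = a := by ring
  rw [h5] at hmv
  rw [sub_mul, sub_re]
  exact hmv

/-- comparison of a curve and a real function at a point -/
lemma local1 {f : ℝ → ℂ} {g : ℝ → ℝ} {f' : ℂ} {g' : ℝ} {t₀ : ℝ} (hf : HasDerivAt f f' t₀)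
    (hg : HasDerivAt g g' t₀) (hfg : ‖f'‖ ≤ g') (hg' : 0 < g') {ε : ℝ} (hε : 0 < ε) :
    ∀ᶠ t in 𝓝[>] t₀, ‖f t - f t₀‖ ≤ (1 + ε) * (g t - g t₀) := by
  set δ : ℝ := ε * g' / (2 + ε) with hδ
  have hδ0 : 0 < δ := by positivity
  have h1 := hf.isLittleO.def hδ0
  have h2 := hg.isLittleO.def hδ0
  filter_upwards [nhdsWithin_le_nhds h1, nhdsWithin_le_nhds h2, self_mem_nhdsWithin] with t h3 h4 h5
  have h5' : 0 < t - t₀ := sub_pos.2 h5
  rw [Real.norm_of_nonneg h5'.le] at h3 h4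
  have h6 : ‖f t - f t₀‖ ≤ (t - t₀) * g' + δ * (t - t₀) := by
    have : f t - f t₀ = (f t - f t₀ - (t - t₀) • f') + (t - t₀) • f' := by ring
    rw [this]
    refine (norm_add_le _ _).trans ?_
    rw [norm_smul, Real.norm_of_nonneg h5'.le]
    nlinarith
  have h7 : (t - t₀) * g' - δ * (t - t₀) ≤ g t - g t₀ := by
    rw [Real.norm_eq_abs, abs_le] at h4
    simp only [smul_eq_mul] at h4
    linarith [h4.1]
  have h8 : g' + δ ≤ (1 + ε) * (g' - δ) := by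
    have : δ * (2 + ε) = ε * g' := by rw [hδ]; field_simp
    nlinarith
  calc ‖f t - f t₀‖ ≤ (t - t₀) * g' + δ * (t - t₀) := h6
    _ = (t - t₀) * (g' + δ) := by ring
    _ ≤ (t - t₀) * ((1 + ε) * (g' - δ)) := by gcongr
    _ = (1 + ε) * ((t - t₀) * g' - δ * (t - t₀)) := by ring
    _ ≤ (1 + ε) * (g t - g t₀) := by gcongr

/-- comparison of two holomorphic functions at a point -/
lemma local2 {Φ h : ℂ → ℂ} {b : ℂ} (hΦ : DifferentiableAt ℂ Φ b) (hh : DifferentiableAt ℂ h b)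
    (hle : ‖deriv h b‖ ≤ ‖deriv Φ b‖) (hpos : 0 < ‖deriv Φ b‖) {ε : ℝ} (hε : 0 < ε) :
    ∀ᶠ a in 𝓝 b, ‖h a - h b‖ ≤ (1 + ε) * ‖Φ a - Φ b‖ := by
  set g' := ‖deriv Φ b‖ with hg'
  set δ : ℝ := ε * g' / (2 + ε) with hδ
  have hδ0 : 0 < δ := by positivity
  have h1 := hh.hasDerivAt.isLittleO.def hδ0
  have h2 := hΦ.hasDerivAt.isLittleO.def hδ0
  filter_upwards [h1, h2] with a h3 h4
  have h6 : ‖h a - h b‖ ≤ ‖a - b‖ * g' + δ * ‖a - b‖ := by
    have : h a - h b = (h a - h b - (a - b) • deriv h b) + (a - b) • deriv h b := by ring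
    rw [this]
    refine (norm_add_le _ _).trans ?_
    rw [norm_smul]
    nlinarith [norm_nonneg (a - b)]
  have h7 : ‖a - b‖ * g' - δ * ‖a - b‖ ≤ ‖Φ a - Φ b‖ := by
    have : (a - b) • deriv Φ b = (Φ a - Φ b) - (Φ a - Φ b - (a - b) • deriv Φ b) := by ring
    have h8 : ‖(a - b) • deriv Φ b‖ ≤ ‖Φ a - Φ b‖ + ‖Φ a - Φ b - (a - b) • deriv Φ b‖ := by
      conv_lhs => rw [this]
      exact norm_sub_le _ _
    rw [norm_smul] at h8
    linarith
  have h8 : g' + δ ≤ (1 + ε) * (g' - δ) := by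
    have : δ * (2 + ε) = ε * g' := by rw [hδ]; field_simp
    nlinarith
  calc ‖h a - h b‖ ≤ ‖a - b‖ * g' + δ * ‖a - b‖ := h6
    _ = ‖a - b‖ * (g' + δ) := by ring
    _ ≤ ‖a - b‖ * ((1 + ε) * (g' - δ)) := by gcongr
    _ = (1 + ε) * (‖a - b‖ * g' - δ * ‖a - b‖) := by ring
    _ ≤ (1 + ε) * ‖Φ a - Φ b‖ := by gcongr

lemma hasDerivAt_line {F : ℂ → ℂ} {t : ℝ} (hF : DifferentiableAt ℂ F (t * I)) :
    HasDerivAt (fun t : ℝ => F (t * I)) (I * deriv F (t * I)) t := by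
  have h0 : HasDerivAt (fun t : ℝ => (t : ℂ)) 1 t := Complex.ofRealCLM.hasDerivAt
  have h1 : HasDerivAt (fun t : ℝ => (t : ℂ) * I) I t := by simpa using h0.mul_const I
  exact HasDerivAt.scomp t hF.hasDerivAt h1

/-- the angular part of `h` on the imaginary axis moves slower than the imaginary part of `Φ` -/
lemma angular {E : ℝ} {Φ h : ℂ → ℂ} (H : HP E Φ h) (t : ℝ) :
    ∃ e' : ℂ, HasDerivAt (fun t : ℝ => ((-(Φ (t * I)).re : ℝ) : ℂ)⁻¹ * h (t * I)) e' t ∧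
      (-(Φ (t * I)).re) * ‖e'‖ ≤ (deriv Φ (t * I)).re := by
  have hre : ((t : ℂ) * I).re ≤ 0 := by simp
  set D := deriv Φ (t * I) with hD
  have hs : HasDerivAt (fun t : ℝ => -(Φ (t * I)).re) D.im t := by
    have h0 := (hasDerivAt_re (hasDerivAt_line (H.dΦ _ hre))).neg
    have h1 : -(I * deriv Φ (t * I)).re = D.im := by simp [hD]
    rw [h1] at h0
    exact h0
  have hh : HasDerivAt (fun t : ℝ => h (t * I)) (I * deriv h (t * I)) t :=
    hasDerivAt_line (H.dh _ hre)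
  have hb : ∀ t : ℝ, ‖h (t * I)‖ = -(Φ (t * I)).re := H.bdry
  have hpos : ∀ t : ℝ, 0 < -(Φ (t * I)).re := fun t => by rw [← hb t]; exact H.bpos t
  set s := -(Φ (t * I)).re with hsdef
  have hs0 : 0 < s := hpos t
  have hsc : HasDerivAt (fun t : ℝ => ((-(Φ (t * I)).re : ℝ) : ℂ)) (D.im : ℂ) t := hs.ofReal_comp
  have hne : ((-(Φ (t * I)).re : ℝ) : ℂ) ≠ 0 := by exact_mod_cast (hpos t).ne'
  have hinv := (hsc.inv hne).mul hh
  refine ⟨_, hinv, ?_⟩
  set Hp := I * deriv h (t * I) with hHp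
  -- inner product of `H` and `H'`
  have hin : inner ℝ (h (t * I)) Hp = s * D.im := by
    have h1 := hh.norm_sq
    have h2 : HasDerivAt (fun t : ℝ => (-(Φ (t * I)).re) ^ 2) (2 * (-(Φ (t * I)).re) * D.im) t := by
      have h2' := hs.fun_pow 2
      simpa using h2'
    have h3 : (fun t : ℝ => ‖h (t * I)‖ ^ 2) = fun t : ℝ => (-(Φ (t * I)).re) ^ 2 := by
      funext t; rw [hb t]
    rw [h3] at h1
    have := h1.unique h2
    linarith
  have hnorm : ‖Hp‖ ≤ ‖D‖ := by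
    rw [hHp, norm_mul, norm_I, one_mul]; exact H.le _ hre
  have hDsq : ‖D‖ ^ 2 = D.re ^ 2 + D.im ^ 2 := by
    rw [← Complex.normSq_eq_norm_sq, Complex.normSq_apply]; ring
  have hDre : 0 ≤ D.re := H.pos.le.trans (H.re _ hre)
  have hval : (s : ℂ) * (-(D.im : ℂ) / ((s : ℝ) : ℂ) ^ 2 * h (t * I) + ((s : ℝ) : ℂ)⁻¹ * Hp) =
      Hp - ((D.im / s : ℝ) : ℂ) * h (t * I) := by
    have : (s : ℂ) ≠ 0 := by exact_mod_cast hs0.ne'
    push_cast
    field_simp
    ring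
  have h4 : s * ‖-(D.im : ℂ) / ((s : ℝ) : ℂ) ^ 2 * h (t * I) + ((s : ℝ) : ℂ)⁻¹ * Hp‖ =
      ‖Hp - ((D.im / s : ℝ) : ℂ) * h (t * I)‖ := by
    rw [← hval, norm_mul, Complex.norm_real, Real.norm_of_nonneg hs0.le]
  refine (le_of_eq h4).trans ?_
  have h5 : ‖Hp - ((D.im / s : ℝ) : ℂ) * h (t * I)‖ ^ 2 = ‖Hp‖ ^ 2 - D.im ^ 2 := by
    have h6 : ((D.im / s : ℝ) : ℂ) * h (t * I) = (D.im / s : ℝ) • h (t * I) := by
      rw [Complex.real_smul]
    rw [h6, @norm_sub_sq_real, real_inner_smul_right, real_inner_comm, hin, norm_smul, hb t,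
      Real.norm_eq_abs, mul_pow, sq_abs, ← hsdef]
    field_simp
    ring
  have h7 : ‖Hp - ((D.im / s : ℝ) : ℂ) * h (t * I)‖ ^ 2 ≤ D.re ^ 2 := by
    rw [h5]
    have : ‖Hp‖ ^ 2 ≤ ‖D‖ ^ 2 := by gcongr
    rw [hDsq] at this
    linarith
  exact abs_le_of_sq_le_sq' h7 hDre |>.2

/-- `Φ` grows at speed at least `E` along horizontal lines -/
lemma slope {E : ℝ} {Φ h : ℂ → ℂ} (H : HP E Φ h) (t : ℝ) {τ τ' : ℝ} (h1 : 0 ≤ τ) (h2 : 0 ≤ τ') :
    E * |τ - τ'| ≤ |(-(Φ (-(τ : ℂ) + t * I)).re) - (-(Φ (-(τ' : ℂ) + t * I)).re)| := by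
  have ha : (-(τ : ℂ) + t * I).re ≤ 0 := by simpa using h1
  have hb : (-(τ' : ℂ) + t * I).re ≤ 0 := by simpa using h2
  have h3 := nw H ha hb
  have h4 : (-(τ : ℂ) + t * I) - (-(τ' : ℂ) + t * I) = ((τ' - τ : ℝ) : ℂ) := by push_cast; ring
  rw [h4, Complex.conj_ofReal, Complex.re_mul_ofReal, Complex.norm_real, Real.norm_eq_abs,
    sub_re] at h3
  have h5 : |τ - τ'| = |τ' - τ| := abs_sub_comm _ _
  have h6 : ((-(Φ (-(τ : ℂ) + t * I)).re) - (-(Φ (-(τ' : ℂ) + t * I)).re)) =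
    -((Φ (-(τ : ℂ) + t * I)).re - (Φ (-(τ' : ℂ) + t * I)).re) := by ring
  rw [h5, h6, abs_neg]
  rcases (abs_nonneg (τ' - τ)).eq_or_lt with h7 | h7
  · rw [← h7]; simp
  · have h8 : E * |τ' - τ| * |τ' - τ| ≤
        |(Φ (-(τ : ℂ) + t * I)).re - (Φ (-(τ' : ℂ) + t * I)).re| * |τ' - τ| := by
      rw [← abs_mul]
      calc _ = E * |τ' - τ| ^ 2 := by ring
        _ ≤ _ := h3.trans (le_abs_self _)
    exact le_of_mul_le_mul_right h8 h7

lemma exists_tau {E : ℝ} {Φ h : ℂ → ℂ} (H : HP E Φ h) (t : ℝ) {M : ℝ}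
    (hM : -(Φ (t * I)).re ≤ M) :
    ∃ τ : ℝ, 0 ≤ τ ∧ -(Φ (-(τ : ℂ) + t * I)).re = M := by
  set K : ℝ := (M - (-(Φ (t * I)).re)) / E with hK
  have hE := H.pos
  have hK0 : 0 ≤ K := by
    apply div_nonneg _ hE.le
    linarith
  have hcont : ContinuousOn (fun τ : ℝ => -(Φ (-(τ : ℂ) + t * I)).re) (Icc 0 K) := by
    intro τ hτ
    have hre : (-(τ : ℂ) + t * I).re ≤ 0 := by simpa using hτ.1
    have h1 : ContinuousAt Φ (-(τ : ℂ) + t * I) := (H.dΦ _ hre).continuousAt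
    have h2 : ContinuousAt (fun τ : ℝ => (-(τ : ℂ) + t * I)) τ := by fun_prop
    have h3 : ContinuousAt (fun τ : ℝ => Φ (-(τ : ℂ) + t * I)) τ :=
      ContinuousAt.comp (f := fun τ : ℝ => (-(τ : ℂ) + t * I)) (g := Φ) h1 h2
    exact (Complex.continuous_re.continuousAt.comp h3).neg.continuousWithinAt
  have h0 : (fun τ : ℝ => -(Φ (-(τ : ℂ) + t * I)).re) 0 ≤ M := by simpa using hM
  have hKM : M ≤ (fun τ : ℝ => -(Φ (-(τ : ℂ) + t * I)).re) K := by
    have ha : (-(K : ℂ) + t * I).re ≤ 0 := by simpa using hK0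
    have hb : ((t : ℂ) * I).re ≤ 0 := by simp
    have h3 := nw H ha hb
    have h4 : (-(K : ℂ) + t * I) - (t * I) = ((-K : ℝ) : ℂ) := by push_cast; ring
    rw [h4, Complex.conj_ofReal, Complex.re_mul_ofReal, Complex.norm_real, Real.norm_eq_abs,
      sub_re, sq_abs] at h3
    have h5 : E * K = M - (-(Φ (t * I)).re) := by rw [hK]; field_simp
    show M ≤ -(Φ (-(K : ℂ) + t * I)).re
    rcases hK0.eq_or_lt with h6 | h6
    · rw [← h6] at h5 ⊢
      simp at h5 ⊢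
      linarith
    · have h7 : (E * K) * K ≤ ((-(Φ (-(K : ℂ) + t * I)).re) - (-(Φ (t * I)).re)) * K := by
        nlinarith
      have h8 := le_of_mul_le_mul_right h7 h6
      linarith
  obtain ⟨τ, hτ, hτ'⟩ := intermediate_value_Icc hK0 hcont ⟨h0, hKM⟩
  exact ⟨τ, hτ.1, hτ'⟩

/-- **Packet E.** -/
lemma main_le {E : ℝ} {Φ h : ℂ → ℂ} (H : HP E Φ h) {θ₁ θ₂ : ℝ} (hθ : θ₁ ≤ θ₂) :
    ‖h (θ₁ * I) - h (θ₂ * I)‖ ≤ |(Φ (θ₁ * I)).re - (Φ (θ₂ * I)).re| +
      |(Φ (θ₁ * I)).im - (Φ (θ₂ * I)).im| := by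
  have hE := H.pos
  -- the real part on the boundary
  obtain ⟨s, hs⟩ : ∃ s : ℝ → ℝ, ∀ t : ℝ, s t = -(Φ (t * I)).re := ⟨_, fun _ => rfl⟩
  have hspos : ∀ t, 0 < s t := fun t => by rw [hs, ← H.bdry t]; exact H.bpos t
  have hhs : ∀ t : ℝ, ‖h (t * I)‖ = s t := fun t => by rw [hs, H.bdry t]
  have hre0 : ∀ t : ℝ, ((t : ℂ) * I).re ≤ 0 := fun t => by simp
  have hscont : Continuous s := by
    have : s = fun t : ℝ => -(Φ (t * I)).re := funext hs
    rw [this, continuous_iff_continuousAt]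
    intro t
    have h1 : ContinuousAt (fun t : ℝ => Φ (t * I)) t :=
      (hasDerivAt_line (H.dΦ _ (hre0 t))).continuousAt
    exact (Complex.continuous_re.continuousAt.comp h1).neg
  set m : ℝ := min (s θ₁) (s θ₂) with hm
  have hm0 : 0 < m := lt_min (hspos _) (hspos _)
  obtain ⟨M, hM⟩ : ∃ M : ℝ → ℝ, ∀ t : ℝ, M t = max (s t) m := ⟨_, fun _ => rfl⟩
  have hMcont : Continuous M := by
    have : M = fun t : ℝ => max (s t) m := funext hM
    rw [this]; fun_prop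
  have hMpos : ∀ t, 0 < M t := fun t => by rw [hM]; exact lt_max_of_lt_right hm0
  have hex : ∀ t : ℝ, ∃ τ : ℝ, 0 ≤ τ ∧ -(Φ (-(τ : ℂ) + t * I)).re = M t := fun t =>
    exists_tau H t (by rw [hM, ← hs]; exact le_max_left _ _)
  choose τ hτ0 hτ using hex
  have hre : ∀ t : ℝ, (-(τ t : ℂ) + t * I).re ≤ 0 := fun t => by simpa using hτ0 t
  have hτzero : ∀ t, m ≤ s t → τ t = 0 := by
    intro t ht
    have h1 := slope H t (hτ0 t) le_rfl
    rw [hτ t, hM, max_eq_left ht] at h1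
    simp only [sub_zero, ofReal_zero, neg_zero, zero_add] at h1
    rw [← hs, sub_self, abs_zero] at h1
    have h2 : |τ t| ≤ 0 := by
      by_contra h3
      push Not at h3
      have := mul_pos hE h3
      linarith
    exact abs_nonpos_iff.1 h2
  have hτcont : Continuous τ := by
    rw [continuous_iff_continuousAt]
    intro t₀
    have h1 : ContinuousAt (fun t : ℝ => -(Φ (-(τ t₀ : ℂ) + t * I)).re) t₀ := by
      have h1 : ContinuousAt Φ (-(τ t₀ : ℂ) + t₀ * I) := (H.dΦ _ (hre t₀)).continuousAt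
      have h2 : ContinuousAt (fun t : ℝ => (-(τ t₀ : ℂ) + t * I)) t₀ := by fun_prop
      have h3 : ContinuousAt (fun t : ℝ => Φ (-(τ t₀ : ℂ) + t * I)) t₀ :=
        ContinuousAt.comp (f := fun t : ℝ => (-(τ t₀ : ℂ) + t * I)) (g := Φ) h1 h2
      exact (Complex.continuous_re.continuousAt.comp h3).neg
    have h2 : Tendsto (fun t : ℝ => |M t - -(Φ (-(τ t₀ : ℂ) + t * I)).re| / E) (𝓝 t₀) (𝓝 0) := by
      have h3 : Tendsto (fun t : ℝ => |M t - -(Φ (-(τ t₀ : ℂ) + t * I)).re| / E) (𝓝 t₀)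
          (𝓝 (|M t₀ - -(Φ (-(τ t₀ : ℂ) + t₀ * I)).re| / E)) :=
        ((hMcont.continuousAt.tendsto.sub h1.tendsto).abs).div_const E
      rw [hτ t₀, sub_self, abs_zero, zero_div] at h3
      exact h3
    rw [ContinuousAt, tendsto_iff_dist_tendsto_zero]
    refine squeeze_zero (fun _ => dist_nonneg) (fun t => ?_) h2
    rw [Real.dist_eq, le_div_iff₀ hE, mul_comm]
    have h3 := slope H t (hτ0 t) (hτ0 t₀)
    rw [hτ t] at h3
    exact h3
  obtain ⟨G, hG⟩ : ∃ G : ℝ → ℂ, ∀ t : ℝ, G t = -(τ t : ℂ) + t * I := ⟨_, fun _ => rfl⟩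
  have hGre : ∀ t, (G t).re ≤ 0 := fun t => by rw [hG]; exact hre t
  have hGcont : Continuous G := by
    have : G = fun t : ℝ => -(τ t : ℂ) + t * I := funext hG
    rw [this]; fun_prop
  have hGΦ : ∀ t, -(Φ (G t)).re = M t := fun t => by rw [hG]; exact hτ t
  have hG0 : ∀ t, m ≤ s t → G t = t * I := fun t ht => by
    rw [hG, hτzero t ht]; simp
  have hΦG : Continuous (fun t => Φ (G t)) := by
    rw [continuous_iff_continuousAt]
    exact fun t => ContinuousAt.comp (f := G) (g := Φ) (H.dΦ _ (hGre t)).continuousAt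
      hGcont.continuousAt
  have hhG : Continuous (fun t => h (G t)) := by
    rw [continuous_iff_continuousAt]
    exact fun t => ContinuousAt.comp (f := G) (g := h) (H.dh _ (hGre t)).continuousAt
      hGcont.continuousAt
  obtain ⟨C, hC⟩ : ∃ C : ℝ → ℂ, ∀ t : ℝ, C t = ((m / M t : ℝ) : ℂ) * h (G t) := ⟨_, fun _ => rfl⟩
  have hCcont : Continuous C := by
    have : C = fun t : ℝ => ((m / M t : ℝ) : ℂ) * h (G t) := funext hC
    rw [this]
    have h1 : Continuous (fun t => m / M t) := continuous_const.div hMcont (fun t => (hMpos t).ne')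
    exact (Complex.continuous_ofReal.comp h1).mul hhG
  obtain ⟨y, hy⟩ : ∃ y : ℝ → ℝ, ∀ t : ℝ, y t = (Φ (G t)).im := ⟨_, fun _ => rfl⟩
  have hycont : Continuous y := by
    have : y = fun t : ℝ => (Φ (G t)).im := funext hy
    rw [this]
    exact Complex.continuous_im.comp hΦG
  -- type 1
  have hC1 : ∀ t, m ≤ s t → C t = m * ((((-(Φ (t * I)).re : ℝ) : ℂ))⁻¹ * h (t * I)) := by
    intro t ht
    rw [hC, hG0 t ht, hM, max_eq_left ht, hs]
    push_cast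
    ring
  have hy1 : ∀ t, m ≤ s t → y t = (Φ (t * I)).im := fun t ht => by rw [hy, hG0 t ht]
  have type1 : ∀ ε : ℝ, 0 < ε → ∀ t₀, m ≤ s t₀ →
      ∀ᶠ t in 𝓝[>] t₀, m ≤ s t → ‖C t - C t₀‖ ≤ (1 + ε) * (y t - y t₀) := by
    intro ε hε t₀ ht₀
    obtain ⟨e', he', hle⟩ := angular H t₀
    have hf := he'.const_mul (m : ℂ)
    have hg : HasDerivAt (fun t : ℝ => (Φ (t * I)).im) (deriv Φ (t₀ * I)).re t₀ := by
      have h1 := hasDerivAt_im (hasDerivAt_line (H.dΦ _ (hre0 t₀)))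
      have h2 : (I * deriv Φ (t₀ * I)).im = (deriv Φ (t₀ * I)).re := by simp
      rw [h2] at h1
      exact h1
    have hpos : 0 < (deriv Φ (t₀ * I)).re := hE.trans_le (H.re _ (hre0 t₀))
    have hfg : ‖(m : ℂ) * e'‖ ≤ (deriv Φ (t₀ * I)).re := by
      rw [norm_mul, Complex.norm_real, Real.norm_of_nonneg hm0.le]
      refine le_trans ?_ hle
      rw [← hs]
      gcongr
    filter_upwards [local1 hf hg hfg hpos hε] with t h1 h2
    rw [hC1 t h2, hC1 t₀ ht₀, hy1 t h2, hy1 t₀ ht₀]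
    exact h1
  have type2 : ∀ ε : ℝ, 0 < ε → ∀ t₀, s t₀ ≤ m →
      ∀ᶠ t in 𝓝[>] t₀, s t ≤ m → ‖C t - C t₀‖ ≤ (1 + ε) * (y t - y t₀) := by
    intro ε hε t₀ ht₀
    have hpos : 0 < ‖deriv Φ (G t₀)‖ :=
      (hE.trans_le (H.re _ (hGre t₀))).trans_le (Complex.re_le_norm _)
    have h1 := local2 (H.dΦ _ (hGre t₀)) (H.dh _ (hGre t₀)) (H.le _ (hGre t₀)) hpos hε
    have h2 : ∀ᶠ t in 𝓝 t₀, ‖h (G t) - h (G t₀)‖ ≤ (1 + ε) * ‖Φ (G t) - Φ (G t₀)‖ :=
      hGcont.continuousAt.tendsto.eventually h1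
    filter_upwards [nhdsWithin_le_nhds h2, self_mem_nhdsWithin] with t h3 h4 h5
    have h4' : 0 < t - t₀ := sub_pos.2 h4
    have hCt : C t = h (G t) := by
      rw [hC, hM, max_eq_right h5, div_self hm0.ne']; simp
    have hCt₀ : C t₀ = h (G t₀) := by
      rw [hC, hM, max_eq_right ht₀, div_self hm0.ne']; simp
    have hre' : (Φ (G t)).re = (Φ (G t₀)).re := by
      have h6 := hGΦ t
      have h7 := hGΦ t₀
      rw [hM, max_eq_right h5] at h6
      rw [hM, max_eq_right ht₀] at h7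
      linarith
    have hdiff : Φ (G t) - Φ (G t₀) = ((y t - y t₀ : ℝ) : ℂ) * I := by
      apply Complex.ext
      · simp [hre']
      · simp [hy]
    have hynn : 0 ≤ y t - y t₀ := by
      have h6 := nw H (hGre t) (hGre t₀)
      rw [hdiff] at h6
      have h7 : (((y t - y t₀ : ℝ) : ℂ) * I * (starRingEnd ℂ) (G t - G t₀)).re =
          (y t - y t₀) * (t - t₀) := by
        rw [hG, hG]
        simp
        ring
      rw [h7] at h6
      have h8 : 0 ≤ (y t - y t₀) * (t - t₀) := le_trans (by positivity) h6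
      exact nonneg_of_mul_nonneg_left h8 h4'
    rw [hCt, hCt₀]
    refine h3.trans (le_of_eq ?_)
    rw [hdiff, norm_mul, norm_I, mul_one, Complex.norm_real, Real.norm_of_nonneg hynn]
  have hloc : ∀ ε : ℝ, 0 < ε → ∀ t₀,
      ∀ᶠ t in 𝓝[>] t₀, ‖C t - C t₀‖ ≤ (1 + ε) * (y t - y t₀) := by
    intro ε hε t₀
    rcases lt_trichotomy (s t₀) m with hlt | heq | hgt
    · have h1 : ∀ᶠ t in 𝓝 t₀, s t < m := hscont.continuousAt.eventually_lt continuousAt_const hlt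
      filter_upwards [type2 ε hε t₀ hlt.le, nhdsWithin_le_nhds h1] with t h2 h3
      exact h2 h3.le
    · filter_upwards [type2 ε hε t₀ heq.le, type1 ε hε t₀ heq.ge] with t h2 h3
      rcases le_total (s t) m with h4 | h4
      · exact h2 h4
      · exact h3 h4
    · have h1 : ∀ᶠ t in 𝓝 t₀, m < s t := continuousAt_const.eventually_lt hscont.continuousAt hgt
      filter_upwards [type1 ε hε t₀ hgt.le, nhdsWithin_le_nhds h1] with t h2 h3
      exact h2 h3.le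
  -- global
  have hglob : ∀ ε : ℝ, 0 < ε → ‖C θ₂ - C θ₁‖ ≤ (1 + ε) * (y θ₂ - y θ₁) := by
    intro ε hε
    let S : Set ℝ := {t | ‖C t - C θ₁‖ ≤ (1 + ε) * (y t - y θ₁)}
    have hSc : IsClosed S := isClosed_le (by fun_prop) (by fun_prop)
    have hsub : Icc θ₁ θ₂ ⊆ S := by
      apply IsClosed.Icc_subset_of_forall_exists_gt (hSc.inter isClosed_Icc)
      · simp [S]
      · intro x hx z hz
        have h1 := hloc ε hε x
        have h2 : ∀ᶠ t in 𝓝[>] x, t ∈ Ioc x z := Ioc_mem_nhdsGT hz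
        obtain ⟨t, h3, h4⟩ := (h1.and h2).exists
        refine ⟨t, ?_, h4⟩
        show ‖C t - C θ₁‖ ≤ (1 + ε) * (y t - y θ₁)
        have h5 : ‖C x - C θ₁‖ ≤ (1 + ε) * (y x - y θ₁) := hx.1
        have h6 : C t - C θ₁ = (C t - C x) + (C x - C θ₁) := by ring
        rw [h6]
        refine (norm_add_le _ _).trans ?_
        nlinarith
    exact hsub ⟨hθ, le_rfl⟩
  have hfin : ‖C θ₂ - C θ₁‖ ≤ y θ₂ - y θ₁ := by
    have h1 : Tendsto (fun ε : ℝ => (1 + ε) * (y θ₂ - y θ₁)) (𝓝[>] 0)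
        (𝓝 ((1 + 0) * (y θ₂ - y θ₁))) := by
      apply Tendsto.mono_left _ nhdsWithin_le_nhds
      have : Continuous (fun ε : ℝ => (1 + ε) * (y θ₂ - y θ₁)) := by fun_prop
      exact this.tendsto 0
    have h2 := ge_of_tendsto h1 (by
      filter_upwards [self_mem_nhdsWithin] with ε hε
      exact hglob ε hε)
    simpa using h2
  -- conclusion
  have e1 : m ≤ s θ₁ := min_le_left _ _
  have e2 : m ≤ s θ₂ := min_le_right _ _
  have hnear : ∀ t, m ≤ s t → ‖h (t * I) - C t‖ ≤ s t - m := by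
    intro t ht
    rw [hC, hG0 t ht, hM, max_eq_left ht]
    have h1 : h (t * I) - ((m / s t : ℝ) : ℂ) * h (t * I) =
        ((1 - m / s t : ℝ) : ℂ) * h (t * I) := by push_cast; ring
    have h2 : 0 ≤ 1 - m / s t := by
      rw [sub_nonneg, div_le_one (hspos t)]; exact ht
    rw [h1, norm_mul, Complex.norm_real, Real.norm_of_nonneg h2, hhs]
    have := (hspos t).ne'
    apply le_of_eq
    field_simp
  have k1 := hnear θ₁ e1
  have k2 := hnear θ₂ e2
  have k3 : h (θ₁ * I) - h (θ₂ * I) = (h (θ₁ * I) - C θ₁) + (C θ₁ - C θ₂) + (C θ₂ - h (θ₂ * I)) := by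
    ring
  have k4 : ‖h (θ₁ * I) - h (θ₂ * I)‖ ≤ (s θ₁ - m) + ‖C θ₁ - C θ₂‖ + (s θ₂ - m) := by
    rw [k3]
    refine (norm_add₃_le).trans ?_
    have k5 : ‖C θ₂ - h (θ₂ * I)‖ = ‖h (θ₂ * I) - C θ₂‖ := norm_sub_rev _ _
    rw [k5]
    gcongr
  have k6 : (s θ₁ - m) + (s θ₂ - m) = |(Φ (θ₁ * I)).re - (Φ (θ₂ * I)).re| := by
    have h1 : (Φ (θ₁ * I)).re = - s θ₁ := by rw [hs]; ring
    have h2 : (Φ (θ₂ * I)).re = - s θ₂ := by rw [hs]; ring
    rw [h1, h2, hm]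
    rcases le_total (s θ₁) (s θ₂) with h3 | h3
    · rw [min_eq_left h3, abs_of_nonneg (by linarith)]; ring
    · rw [min_eq_right h3, abs_of_nonpos (by linarith)]; ring
  have k7 : ‖C θ₁ - C θ₂‖ ≤ |(Φ (θ₁ * I)).im - (Φ (θ₂ * I)).im| := by
    rw [norm_sub_rev, ← hy1 θ₁ e1, ← hy1 θ₂ e2, abs_sub_comm]
    exact hfin.trans (le_abs_self _)
  linarith

/-- **Packet E** (the boundary Lipschitz lemma). -/
theorem stmtE : StmtE := by
  intro E Φ h H θ₁ θ₂
  rcases le_total θ₁ θ₂ with hle | hle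
  · exact main_le H hle
  · have := main_le H hle
    rw [norm_sub_rev, abs_sub_comm, abs_sub_comm (Φ (θ₁ * I)).im]
    exact this

end Pool.Agent.Helper22.DZ
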